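import Pool.Agent.P.MP_6dea24_co.Box
import Pool.Agent.P.MP_6dea24_co.BipE

namespace Pool.Agent.Results.MP_6dea24_co.Full

/-- The 2-coloured multigraph with red graph `R` and blue graph `B` contains the 2-coloured
complete graph with red graph `F` and blue graph `Fᶜ`. -/
def Contains {α V : Type} (F : SimpleGraph α) (R B : SimpleGraph V) : Prop :=
  ∃ φ : α → V, Function.Injective φ ∧ (∀ u v, F.Adj u v → R.Adj (φ u) (φ v)) ∧
    (∀ u v, Fᶜ.Adj u v → B.Adj (φ u) (φ v))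

/-- Every connected component is a balanced complete bipartite graph. -/
def BalBip {β : Type} (G : SimpleGraph β) : Prop :=
  ∀ C : G.ConnectedComponent, ∃ s : ℕ, 1 ≤ s ∧
    Nonempty (C.toSimpleGraph ≃g completeBipartiteGraph (Fin s) (Fin s))

/-- The exceptional class of the problem. -/
def Exceptional {k : ℕ} (F : SimpleGraph (Fin k)) : Prop :=
  (k = 4 ∨ k = 6 ∨ k = 8) ∧ (BalBip F ∨ BalBip Fᶜ)

open Pool.Agent.P.MP_6dea24_co Finset in
theorem result (k : ℕ) (hk : 2 ≤ k) (F : SimpleGraph (Fin k)) (hne : ¬ Exceptional F)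
    (n : ℕ) (R B : SimpleGraph (Fin n)) (hG : ¬ Contains F R B) :
    min (R.edgeSet.ncard : ℝ) (B.edgeSet.ncard : ℝ)
      ≤ (1 - 1 / ((k : ℝ) - 1)) * (n : ℝ) ^ 2 / 2 := by
  classical
  have hcard : (univ : Finset (Fin k)).card = k := by simp
  have hk' : (2 : ℝ) ≤ k := by exact_mod_cast hk
  have key : ∃ ν τ : ℝ, 0 ≤ ν ∧ 0 ≤ τ ∧ ν + τ ≤ (k : ℝ) - 1 ∧
      ∀ (W : Type) (R B : SimpleGraph W), Cert F univ ν τ R B := by
    have big : ∀ G : SimpleGraph (Fin k), k + 2 ≤ 2 * cc G univ → ∃ ν τ : ℕ, ν + τ + 1 = k ∧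
        ∀ (W : Type) (R B : SimpleGraph W), Cert G univ ν τ R B := by
      intro G h
      have h1 := cc_le_card G univ
      exact ⟨k - cc G univ, cc G univ - 1, by omega, fun W R B =>
        cert_class _ _ _ _ rfl ⟨by omega, by omega, by omega⟩⟩
    by_cases h1 : k + 2 ≤ 2 * cc F univ
    · obtain ⟨ν, τ, h, hC⟩ := big F h1
      exact ⟨ν, τ, by positivity, by positivity, by rw [← h]; push_cast; linarith, hC⟩
    by_cases h2 : k + 2 ≤ 2 * cc Fᶜ univ
    · obtain ⟨ν, τ, h, hC⟩ := big Fᶜ h2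
      exact ⟨τ, ν, by positivity, by positivity, by rw [← h]; push_cast; linarith,
        fun W R B => (hC W B R).swap⟩
    by_cases h5 : 10 ≤ k ∧ (Inv F univ ∨ Inv Fᶜ univ)
    · obtain ⟨t, ht⟩ := h5.2.elim Inv.even Inv.even
      have hkt : (k : ℝ) = 2 * t := by
        rw [← hcard, ht]
        push_cast
        ring
      rcases h5.2 with h | h
      · obtain ⟨ν, τ, a1, a2, a3, hC⟩ := Bip.cert_bip (t := t) h (by omega) (by omega)
        exact ⟨ν, τ, a1, a2, by linarith, hC⟩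
      · obtain ⟨ν, τ, a1, a2, a3, hC⟩ := Bip.cert_bip (t := t) h (by omega) (by omega)
        exact ⟨τ, ν, a2, a1, by linarith, fun W R B => (hC W B R).swap⟩
    obtain ⟨D, rfl⟩ : ∃ D, k = D + 1 := ⟨k - 1, by omega⟩
    have bal : ∀ G : SimpleGraph (Fin (D + 1)), Inv G univ → BalBip G := by
      rintro G ⟨π, a1, a2, a3⟩ C
      exact bal_of_inv (π := π) (fun u => (a1 u (mem_univ _)).2.1) (fun u => (a1 u (mem_univ _)).2.2)
        (fun u v => a2 u (mem_univ _) v (mem_univ _))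
        (fun u v w => a3 u (mem_univ _) v (mem_univ _) w (mem_univ _)) C
    refine ⟨(D : ℝ) / 2, (D : ℝ) / 2, by positivity, by positivity, by push_cast; linarith,
      fun W R B => cert_cc hcard.le (by omega) (by omega) (fun h => ?_) R B⟩
    have hb : BalBip F ∨ BalBip Fᶜ := h.2.imp (bal F) (bal Fᶜ)
    obtain ⟨m, hm⟩ := h.2.elim Inv.even Inv.even
    rw [hcard] at hm
    have h3 : ¬ (D + 1 = 4 ∨ D + 1 = 6 ∨ D + 1 = 8) := fun e => hne ⟨e, hb⟩
    have h4 : ¬ 10 ≤ D + 1 := fun e => h5 ⟨e, h.2⟩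
    obtain rfl : D = 1 := by omega
    have one : ∀ G : SimpleGraph (Fin (1 + 1)), cc G univ ≤ 1 → G.Adj 0 1 := by
      intro G hG
      obtain ⟨g, hg, hlt⟩ := exists_cov_lt hG
      have e0 := hlt 0 (mem_univ _)
      have e1 := hlt 1 (mem_univ _)
      exact hg 0 (mem_univ _) 1 (mem_univ _) (by decide) (by omega)
    exact ((F.compl_adj _ _).1 (one Fᶜ (by omega))).2 (one F (by omega))
  obtain ⟨ν, τ, hν, hτ, hs, hC⟩ := key
  obtain ⟨p, hp0, hp1, hp⟩ := bound_of_cert hν hτ (D := (k : ℝ) - 1) hs (by linarith) hC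
  exact (min_le_comb hp0 hp1).trans (hp n R B hG)

end Pool.Agent.Results.MP_6dea24_co.Full
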