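import Pool.Agent.P.MP_6dea24_co.Final

namespace Pool.Agent.Results.MP_6dea24_co.ThreeQuarters

/-- The 2-coloured multigraph with red graph `R` and blue graph `B` contains the 2-coloured
complete graph with red graph `F` and blue graph `Fᶜ`. -/
def Contains {α V : Type} (F : SimpleGraph α) (R B : SimpleGraph V) : Prop :=
  ∃ φ : α → V, Function.Injective φ ∧ (∀ u v, F.Adj u v → R.Adj (φ u) (φ v)) ∧
    (∀ u v, Fᶜ.Adj u v → B.Adj (φ u) (φ v))

open Pool.Agent.P.MP_6dea24_co Finset in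
theorem result (k : ℕ) (hk : 2 ≤ k) (F : SimpleGraph (Fin k)) :
    ∃ p : ℝ, 0 ≤ p ∧ p ≤ 1 ∧ ∀ (n : ℕ) (R B : SimpleGraph (Fin n)), ¬ Contains F R B →
      p * (R.edgeSet.ncard : ℝ) + (1 - p) * (B.edgeSet.ncard : ℝ)
          ≤ (1 - 3 / (4 * (k : ℝ) - 4)) * (n : ℝ) ^ 2 / 2 := by
  classical
  obtain ⟨ν, τ, hν, hτ, hs, hC⟩ := cert_general F univ (by simpa using hk)
  rw [card_univ, Fintype.card_fin] at hs
  have hk' : (2 : ℝ) ≤ k := by exact_mod_cast hk
  obtain ⟨p, hp0, hp1, hp⟩ := bound_of_cert hν hτ (D := (4 * (k : ℝ) - 4) / 3) (by linarith)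
    (by linarith) hC
  refine ⟨p, hp0, hp1, fun n R B h => ?_⟩
  have := hp n R B h
  rwa [one_div_div] at this

end Pool.Agent.Results.MP_6dea24_co.ThreeQuarters
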